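import Pool.Agent.Helper89.Vol5.Goals

/-! Packet V58-P41 (MP_cd13d2_co): blocks 4,1,1,1,1 (port of `Pool.Agent.Helper23.Vol4.P31`). -/

set_option autoImplicit false

namespace Pool.Agent.Helper13.Vol5.PkP41

open MeasureTheory Set Pool.Agent.Helper86.Poly
open Pool.Agent.Helper89.Vol5

theorem nsq (v : E 5) : ‖v‖ ^ 2 = v 0 ^ 2 + v 1 ^ 2 + v 2 ^ 2 + v 3 ^ 2 + v 4 ^ 2 := by
  rw [EuclideanSpace.norm_sq_eq, Fin.sum_univ_five]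
  simp only [Real.norm_eq_abs, sq_abs]

theorem thm (hP : Pool.Agent.Helper89.Vol4.G_PLN) (hF : G_FRM5) (hA : G_AX) : G_P41 := by
  intro y hy
  obtain ⟨L, ε, hε, hdt, ha, hb, hc, hd, he, hf, -, -⟩ := hF (y 1 - y 0) (y 2 - y 0) (y 3 - y 0) 0
  obtain ⟨P, hPd⟩ : ∃ P : Fin 8 → E 5, ∀ k, P k = L (y k - y 0) := ⟨_, fun _ => rfl⟩
  have hn : ∀ i j, ‖P i - P j‖ ^ 2 ≤ 1 := by
    intro i j
    have h1 : P i - P j = L (y i - y j) := by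
      rw [hPd, hPd, ← map_sub]
      congr 1
      abel
    have h2 : ‖P i - P j‖ ≤ 1 := by
      rw [h1, L.norm_map, ← dist_eq_norm]
      exact hy i j
    have h4 := norm_nonneg (P i - P j)
    nlinarith
  have hdist : ∀ i j, (P i 0 - P j 0) ^ 2 + (P i 1 - P j 1) ^ 2 + (P i 2 - P j 2) ^ 2 +
      (P i 3 - P j 3) ^ 2 + (P i 4 - P j 4) ^ 2 ≤ 1 := by
    intro i j
    have h3 := hn i j
    rw [nsq] at h3
    exact h3
  rw [← hPd] at ha hb hc hd he hf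
  have hP0 : P 0 = 0 := by
    rw [hPd, sub_self, map_zero]
  have h0 : ∀ m, P 0 m = 0 := by
    intro m
    rw [hP0]
    rfl
  obtain ⟨D, h03, -, -, hDs⟩ := hA (P 1) (P 2) (P 3) ha hb hc hd he hf
  have e1 : ε * dt (y 1 - y 0) (y 2 - y 0) (y 3 - y 0) (y 4 - y 0) (y 5 - y 0) =
      dt (P 1) (P 2) (P 3) (P 4) (P 5) := by
    rw [hPd, hPd, hPd, hPd, hPd, hdt]
  have e2 : ε * dt (y 1 - y 0) (y 2 - y 0) (y 3 - y 0) (y 5 - y 0) (y 6 - y 0) =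
      dt (P 1) (P 2) (P 3) (P 5) (P 6) := by
    rw [hPd, hPd, hPd, hPd, hPd, hdt]
  have e3 : ε * dt (y 1 - y 0) (y 2 - y 0) (y 3 - y 0) (y 6 - y 0) (y 7 - y 0) =
      dt (P 1) (P 2) (P 3) (P 6) (P 7) := by
    rw [hPd, hPd, hPd, hPd, hPd, hdt]
  rw [h03] at e1 e2 e3
  obtain ⟨X, hX⟩ : ∃ X, X = (P 4 0 * P 5 1 - P 4 1 * P 5 0) + (P 5 0 * P 6 1 - P 5 1 * P 6 0) +
      (P 6 0 * P 7 1 - P 6 1 * P 7 0) := ⟨_, rfl⟩
  have hp : ε * q41 y = D * X := by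
    unfold q41
    rw [hX]
    linear_combination e1 + e2 + e3
  have hεsq : ε ^ 2 = 1 := by
    rcases hε with h | h <;> rw [h] <;> norm_num
  have hp2 : q41 y ^ 2 = D ^ 2 * X ^ 2 := by
    have h1 : (ε * q41 y) ^ 2 = (D * X) ^ 2 := by rw [hp]
    rw [mul_pow, hεsq, one_mul, mul_pow] at h1
    exact h1
  -- the sum of the squares of the six edges
  obtain ⟨s, hs⟩ : ∃ s, s = ‖P 1‖ ^ 2 + ‖P 2‖ ^ 2 + ‖P 3‖ ^ 2 + ‖P 1 - P 2‖ ^ 2 +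
      ‖P 1 - P 3‖ ^ 2 + ‖P 2 - P 3‖ ^ 2 := ⟨_, rfl⟩
  rw [← hs] at hDs
  have hs0 : 0 ≤ s := by
    rw [hs]
    positivity
  have hs6 : s ≤ 6 := by
    have h1 := hn 1 0
    have h2 := hn 2 0
    have h3 := hn 3 0
    rw [hP0, sub_zero] at h1 h2 h3
    have h4 := hn 1 2
    have h5 := hn 1 3
    have h6 := hn 2 3
    rw [hs]
    linarith
  have hs' : s = (P 1 2 ^ 2 + P 1 3 ^ 2 + P 1 4 ^ 2) + (P 2 2 ^ 2 + P 2 3 ^ 2 + P 2 4 ^ 2) +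
      (P 3 2 ^ 2 + P 3 3 ^ 2 + P 3 4 ^ 2) +
      ((P 1 2 - P 2 2) ^ 2 + (P 1 3 - P 2 3) ^ 2 + (P 1 4 - P 2 4) ^ 2) +
      ((P 1 2 - P 3 2) ^ 2 + (P 1 3 - P 3 3) ^ 2 + (P 1 4 - P 3 4) ^ 2) +
      ((P 2 2 - P 3 2) ^ 2 + (P 2 3 - P 3 3) ^ 2 + (P 2 4 - P 3 4) ^ 2) := by
    rw [hs, nsq, nsq, nsq, nsq, nsq, nsq]
    simp only [PiLp.sub_apply, ha, hb, hc, hd, he, hf]
    ring
  have hpl : ∀ k, P k 0 ^ 2 + P k 1 ^ 2 ≤ 1 - s / 16 := by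
    intro k
    have h1 := hdist k 0
    have h2 := hdist k 1
    have h3 := hdist k 2
    have h4 := hdist k 3
    rw [h0, h0, h0, h0, h0] at h1
    rw [ha, hb] at h2
    rw [hc, hd] at h3
    rw [he, hf] at h4
    rw [hs']
    linarith [sq_nonneg (4 * P k 2 - P 1 2 - P 2 2 - P 3 2),
      sq_nonneg (4 * P k 3 - P 1 3 - P 2 3 - P 3 3), sq_nonneg (4 * P k 4 - P 1 4 - P 2 4 - P 3 4)]
  have hpd : ∀ i j, (P i 0 - P j 0) ^ 2 + (P i 1 - P j 1) ^ 2 ≤ 1 := by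
    intro i j
    have h1 := hdist i j
    linarith [sq_nonneg (P i 2 - P j 2), sq_nonneg (P i 3 - P j 3), sq_nonneg (P i 4 - P j 4)]
  have hfin : q41 y ^ 2 ≤ (0.85 : ℝ) ^ 2 := by
    rw [hp2]
    rcases le_total 4 s with h | h
    · have hk : ∀ k, P k 0 ^ 2 + P k 1 ^ 2 ≤ 3 / 4 := by
        intro k
        have := hpl k
        linarith
      have h1 := hP _ _ _ _ _ _ _ _ (hk 4) (hk 5) (hk 6) (hk 7) (hpd 4 5) (hpd 4 6) (hpd 4 7)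
        (hpd 5 6) (hpd 5 7) (hpd 6 7)
      rw [← hX] at h1
      have h2 : X ^ 2 ≤ (1.172454 : ℝ) ^ 2 := by
        rw [← sq_abs X]
        exact pow_le_pow_left₀ (abs_nonneg _) h1 2
      have h3 : D ^ 2 ≤ 1 / 2 := by
        have h4 : s ^ 3 ≤ 6 ^ 3 := pow_le_pow_left₀ hs0 hs6 3
        linarith
      calc D ^ 2 * X ^ 2 ≤ 1 / 2 * (1.172454 : ℝ) ^ 2 :=
            mul_le_mul h3 h2 (sq_nonneg _) (by norm_num)
        _ ≤ (0.85 : ℝ) ^ 2 := by norm_num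
    · obtain ⟨κ, hκ⟩ : ∃ κ : ℝ, κ ^ 2 = 3 / 4 := ⟨√(3 / 4), Real.sq_sqrt (by norm_num)⟩
      have hk : ∀ k, (κ * P k 0) ^ 2 + (κ * P k 1) ^ 2 ≤ 3 / 4 := by
        intro k
        have := hpl k
        rw [mul_pow, mul_pow, hκ]
        linarith
      have hkd : ∀ i j, (κ * P i 0 - κ * P j 0) ^ 2 + (κ * P i 1 - κ * P j 1) ^ 2 ≤ 1 := by
        intro i j
        have := hpd i j
        rw [← mul_sub, ← mul_sub, mul_pow, mul_pow, hκ]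
        linarith
      have h1 := hP _ _ _ _ _ _ _ _ (hk 4) (hk 5) (hk 6) (hk 7) (hkd 4 5) (hkd 4 6) (hkd 4 7)
        (hkd 5 6) (hkd 5 7) (hkd 6 7)
      have h1' : (κ * P 4 0 * (κ * P 5 1) - κ * P 4 1 * (κ * P 5 0)) +
          (κ * P 5 0 * (κ * P 6 1) - κ * P 5 1 * (κ * P 6 0)) +
          (κ * P 6 0 * (κ * P 7 1) - κ * P 6 1 * (κ * P 7 0)) = 3 / 4 * X := by
        rw [hX, ← hκ]
        ring
      rw [h1'] at h1
      have h2 : (3 / 4 * X) ^ 2 ≤ (1.172454 : ℝ) ^ 2 := by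
        rw [← sq_abs (3 / 4 * X)]
        exact pow_le_pow_left₀ (abs_nonneg _) h1 2
      have h2' : X ^ 2 ≤ 16 / 9 * (1.172454 : ℝ) ^ 2 := by nlinarith
      have h3 : D ^ 2 ≤ 4 / 27 := by
        have h4 : s ^ 3 ≤ 4 ^ 3 := pow_le_pow_left₀ hs0 h 3
        linarith
      calc D ^ 2 * X ^ 2 ≤ 4 / 27 * (16 / 9 * (1.172454 : ℝ) ^ 2) :=
            mul_le_mul h3 h2' (sq_nonneg _) (by norm_num)
        _ ≤ (0.85 : ℝ) ^ 2 := by norm_num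
  exact abs_le_of_sq_le_sq hfin (by norm_num)

end Pool.Agent.Helper13.Vol5.PkP41
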